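import Mathlib

set_option autoImplicit false

/-! # Comparison of powers near zero -/

namespace Pool.Agent.N245.BG

open Filter Topology Set

/-- `r^(-γ)` is small compared with `r^(-s)` for `γ < s`. -/
theorem pow_lt {γ s : ℝ} (a b : ℝ) (hγ : 0 < γ) (hs : γ < s) (ha : 0 < a) :
    ∀ᶠ r : ℝ in 𝓝[>] 0, r ^ (-γ) + b < a * r ^ (-s) := by
  have h1 := (tendsto_rpow_neg_nhdsGT_zero (y := -γ) (by linarith)).eventually_gt_atTop b
  have h2 := (tendsto_rpow_neg_nhdsGT_zero (y := -(s - γ)) (by linarith)).eventually_ge_atTop (2 / a)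
  filter_upwards [h1, h2, self_mem_nhdsWithin] with r h3 h4 hr
  have hr0 : 0 < r := hr
  have h5 : r ^ (-s) = r ^ (-(s - γ)) * r ^ (-γ) := by
    rw [← Real.rpow_add hr0]
    congr 1
    ring
  rw [h5]
  have h6 : 0 < r ^ (-γ) := Real.rpow_pos_of_pos hr0 _
  have h7 : 2 ≤ a * r ^ (-(s - γ)) := by
    rw [div_le_iff₀ ha] at h4
    linarith
  nlinarith

/-- the same after exponentiation, with a factor. -/
theorem exp_lt {γ s : ℝ} (a B : ℝ) (hγ : 0 < γ) (hs : γ < s) (ha : 0 < a) (hB : 0 < B) :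
    ∀ᶠ r : ℝ in 𝓝[>] 0, B * Real.exp (-(a * r ^ (-s))) < Real.exp (-(r ^ (-γ))) := by
  filter_upwards [pow_lt a (Real.log B) hγ hs ha] with r h1
  calc B * Real.exp (-(a * r ^ (-s))) = Real.exp (Real.log B + -(a * r ^ (-s))) := by
        rw [Real.exp_add, Real.exp_log hB]
    _ < _ := by
      rw [Real.exp_lt_exp]
      linarith

end Pool.Agent.N245.BG
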