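import Pool.Agent.N434.BG.Poly
import Pool.Agent.N377.BG.Close
import Pool.Agent.N186.BG.Ne
import Pool.Agent.N106.BG.Sub
import Pool.Agent.N291.BG.Rec
import Pool.Agent.N591.BG.Green
import Pool.Agent.R240.Alm2

set_option autoImplicit false

/-! # Distances of the superattracting parameters -/

namespace Pool.Agent.N245.BG

open Complex Metric Set Filter Topology MeasureTheory N62a1eb23
open Pool.Agent.H712R2 (P fc)
open Pool.Agent.Y736.HL (LL LL_nonneg)

/-- Superattracting parameters are not near to the parameters of the boundary with a slow growth. -/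
theorem far_frontier {c : ℂ} (hc : c ∉ interior (multibrotSet 2)) {A : ℝ} {n : ℕ} (hA : 1 ≤ A)
    (hn : 1 ≤ n) (h : ∀ m k, 1 ≤ m → m ≤ k → k ≤ n → LL c m k ≤ A) {a : ℂ} (ha : P 2 n a = 0) :
    1 / (64 * A ^ 2 * (n : ℝ) ^ 2) < ‖a - c‖ := by
  by_contra hcon
  push Not at hcon
  have hn0 : (0 : ℝ) < n := by exact_mod_cast hn
  have hA0 : 0 < A := by linarith
  have h1 : 64 * A ^ 2 * (n : ℝ) ^ 2 * ‖a - c‖ ≤ 1 := by
    rw [le_div_iff₀ (by positivity)] at hcon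
    linarith
  have h2 := Pool.Agent.N377.BG.close c a A n hA h (by
    have h3 : 0 ≤ A ^ 2 * ‖a - c‖ * (n : ℝ) ^ 2 := by positivity
    nlinarith) n le_rfl
  rw [ha, zero_sub, norm_neg] at h2
  have h3 : ‖P 2 n c‖ ≤ 1 / (32 * A * n) := by
    rw [le_div_iff₀ (by positivity)]
    calc ‖P 2 n c‖ * (32 * A * n) ≤ (2 * A * ‖a - c‖ * n) * (32 * A * n) := by gcongr
      _ = 64 * A ^ 2 * (n : ℝ) ^ 2 * ‖a - c‖ := by ring
      _ ≤ 1 := h1
  obtain ⟨z, hz⟩ := Pool.Agent.N291.BG.rec c A n hA hn h h3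
  exact hc (Pool.Agent.R240.Alm.att_interior le_rfl ⟨n, z, hz⟩)

/-- The points of the critical orbit are not near to `0`. -/
theorem orbit_frontier {c : ℂ} (hc : c ∉ interior (multibrotSet 2)) {A : ℝ} {n : ℕ} (hA : 1 ≤ A)
    (hn : 1 ≤ n) (h : ∀ m k, 1 ≤ m → m ≤ k → k ≤ n → LL c m k ≤ A) :
    1 / (32 * A * (n : ℝ)) < ‖P 2 n c‖ := by
  by_contra hcon
  push Not at hcon
  obtain ⟨z, hz⟩ := Pool.Agent.N291.BG.rec c A n hA hn h hcon
  exact hc (Pool.Agent.R240.Alm.att_interior le_rfl ⟨n, z, hz⟩)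

end Pool.Agent.N245.BG
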