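import Pool.Agent.N245.BG.Far
import Pool.Agent.N245.BG.Asy
import Pool.Agent.N228.DQ.Good
import Pool.Agent.R449.MB.Few

set_option autoImplicit false

/-! # Infinitely renormalizable parameters with bounded geometry: conclusions -/

namespace Pool.Agent.N245.BG

open Complex Metric Set Filter Topology MeasureTheory N62a1eb23
open Pool.Agent.H712R2 (P fc)
open Pool.Agent.H713R2 (IsExteriorMap)
open Pool.Agent.Y736.HL (LL LL_nonneg)
open Pool.Agent.Y736.HD (Ang)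
open Pool.Agent.Y736.RN (Big)
open Pool.Agent.R240.Res (RenC Near centres_same)
open Pool.Agent.R240.Sparse (cen cen_eq)
open Pool.Agent.R240.LL (KL KL_pos law)
open Pool.Agent.R449.MB (FewAt MomAt few_of mom_of lin_exp)
open Pool.Agent.N228.DQ (Ord ord_of)

/-- A parameter of the interior which is not superattracting has a positive distance to the
superattracting ones. -/
theorem far_interior {c : ℂ} (hc : c ∈ interior (multibrotSet 2))
    (hne : ∀ m, 1 ≤ m → P 2 m c ≠ 0) :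
    ∃ δ : ℝ, 0 < δ ∧ ∀ a : ℂ, ∀ m, 1 ≤ m → P 2 m a = 0 → δ ≤ ‖a - c‖ := by
  obtain ⟨r, hr, hball⟩ := Metric.isOpen_iff.1 isOpen_interior c hc
  have hM : ball c r ⊆ multibrotSet 2 := hball.trans interior_subset
  by_cases h : ∃ a ∈ ball c (r / 4), ∃ n, 1 ≤ n ∧ P 2 n a = 0
  · obtain ⟨a, ha, n, hn, han⟩ := h
    have hMa : ball a (r / 2) ⊆ multibrotSet 2 := by
      refine (ball_subset_ball' ?_).trans hM
      have := mem_ball.1 ha
      linarith
    have hfin : {x : ℂ | P 2 n x = 0}.Finite := by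
      obtain ⟨N, rfl⟩ : ∃ N, n = N + 1 := ⟨n - 1, by omega⟩
      exact Pool.Agent.R240.Univ.zeros_finite le_rfl N
    have hcn : c ∉ {x : ℂ | P 2 n x = 0} := hne n hn
    obtain ⟨δ, hδ, hδ'⟩ := Metric.isOpen_iff.1 hfin.isClosed.isOpen_compl c hcn
    refine ⟨min δ (r / 4), by positivity, ?_⟩
    intro b m hm hbm
    by_contra hcon
    push Not at hcon
    have h1 : b ∈ ball a (r / 2) := by
      rw [mem_ball]
      have h2 := mem_ball.1 ha
      have h3 := hcon.trans_le (min_le_right _ _)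
      rw [← dist_eq_norm] at h3
      have := dist_triangle_right b a c
      linarith
    have h2 := centres_same le_rfl hMa hn han h1 hm hbm
    apply hδ' (show b ∈ ball c δ by
      rw [mem_ball, dist_eq_norm]; exact hcon.trans_le (min_le_left _ _))
    exact h2
  · push Not at h
    refine ⟨r / 4, by positivity, ?_⟩
    intro a m hm ham
    by_contra hcon
    push Not at hcon
    exact h a (by rw [mem_ball, dist_eq_norm]; exact hcon) m hm ham

/-- Distances of the superattracting parameters under a polynomial growth. -/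
theorem far_poly {c : ℂ} (hne : ∀ m, 1 ≤ m → P 2 m c ≠ 0) {K : ℝ} {β : ℕ} (hK : 1 ≤ K)
    (h : ∀ m n, m ≤ n → LL c m n ≤ K * ((n - m + 1 : ℕ) : ℝ) ^ β) :
    ∃ δ : ℝ, 0 < δ ∧ ∀ n : ℕ, 1 ≤ n → ∀ a : ℂ, P 2 n a = 0 →
      δ ≤ (n : ℝ) ^ (2 * β + 2) * ‖a - c‖ := by
  by_cases hi : c ∈ interior (multibrotSet 2)
  · obtain ⟨δ, hδ, h1⟩ := far_interior hi hne
    refine ⟨δ, hδ, fun n hn a ha => (h1 a n hn ha).trans ?_⟩
    have h2 : (1 : ℝ) ≤ (n : ℝ) ^ (2 * β + 2) := one_le_pow₀ (by exact_mod_cast hn)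
    have h3 := norm_nonneg (a - c)
    nlinarith
  · refine ⟨1 / (64 * K ^ 2), by positivity, fun n hn a ha => ?_⟩
    have hn1 : (1 : ℝ) ≤ n := by exact_mod_cast hn
    have hnβ : (1 : ℝ) ≤ (n : ℝ) ^ β := one_le_pow₀ hn1
    have h1 := far_frontier hi (A := K * (n : ℝ) ^ β) (n := n) (by nlinarith) hn (by
      intro m k hm hmk hk
      refine (h m k hmk).trans ?_
      have h2 : ((k - m + 1 : ℕ) : ℝ) ≤ n := by exact_mod_cast (by omega : k - m + 1 ≤ n)
      gcongr) ha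
    rw [div_lt_iff₀ (by positivity)] at h1
    rw [div_le_iff₀ (by positivity)]
    have h2 : (n : ℝ) ^ (2 * β + 2) = ((n : ℝ) ^ β) ^ 2 * (n : ℝ) ^ 2 := by
      rw [pow_add, mul_comm 2 β, pow_mul]
    rw [h2]
    nlinarith

/-- Distances of the superattracting parameters under a subexponential growth. -/
theorem not_near {c : ℂ} (hne : ∀ m, 1 ≤ m → P 2 m c ≠ 0)
    (h : ∀ L : ℝ, 1 < L → ∃ C : ℝ, 0 < C ∧ ∀ m n, m ≤ n → LL c m n ≤ C * L ^ (n - m))
    {X : ℝ} (hX : 0 < X) : ¬ Near 2 X c := by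
  by_cases hi : c ∈ interior (multibrotSet 2)
  · exact Pool.Agent.R240.Res.interior_far le_rfl hi hne hX
  · unfold Near
    rw [not_frequently]
    obtain ⟨C, hC, h1⟩ := h (Real.exp (X / 8)) (Real.one_lt_exp_iff.2 (by positivity))
    obtain ⟨n₁, hn₁⟩ := lin_exp (b := X / 4) (A := 8 * (C + 1)) (by positivity)
    filter_upwards [eventually_ge_atTop (max n₁ 1)] with n hn
    rintro ⟨a, ha, hac⟩
    have hn1 : 1 ≤ n := (le_max_right _ _).trans hn
    have hL1 : (1 : ℝ) ≤ Real.exp (X / 8) := Real.one_le_exp_iff.2 (by positivity)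
    have hLn : (1 : ℝ) ≤ Real.exp (X / 8) ^ n := one_le_pow₀ hL1
    have h2 := far_frontier hi (A := (C + 1) * Real.exp (X / 8) ^ n) (n := n) (by nlinarith) hn1 (by
      intro m k hm hmk hk
      refine (h1 m k hmk).trans ?_
      have h3 : Real.exp (X / 8) ^ (k - m) ≤ Real.exp (X / 8) ^ n :=
        pow_le_pow_right₀ hL1 (by omega)
      nlinarith [pow_nonneg (by linarith : (0 : ℝ) ≤ Real.exp (X / 8)) (k - m)]) ha
    have hn0 : (0 : ℝ) < n := by exact_mod_cast hn1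
    rw [div_lt_iff₀ (by positivity)] at h2
    have h3 := hn₁ n ((le_max_left _ _).trans hn)
    have h4 : (8 * (C + 1) * n) ^ 2 ≤ Real.exp (X / 4 * n) ^ 2 := by
      have h5 : 0 ≤ 8 * (C + 1) * (n : ℝ) := by positivity
      have h6 := Real.exp_pos (X / 4 * n)
      apply pow_le_pow_left₀ h5
      linarith
    have e1 : Real.exp (X / 4 * n) ^ 2 = Real.exp (X / 2 * n) := by
      rw [← Real.exp_nat_mul]
      congr 1
      push_cast
      ring
    have e2 : (Real.exp (X / 8) ^ n) ^ 2 = Real.exp (X / 4 * n) := by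
      rw [← Real.exp_nat_mul, ← Real.exp_nat_mul]
      congr 1
      push_cast
      ring
    have h5 : 64 * ((C + 1) * Real.exp (X / 8) ^ n) ^ 2 * (n : ℝ) ^ 2 ≤ Real.exp (X * n) := by
      calc 64 * ((C + 1) * Real.exp (X / 8) ^ n) ^ 2 * (n : ℝ) ^ 2
          = (8 * (C + 1) * n) ^ 2 * (Real.exp (X / 8) ^ n) ^ 2 := by ring
        _ ≤ Real.exp (X / 2 * n) * Real.exp (X / 4 * n) := by
            rw [← e1, e2]
            gcongr
        _ = Real.exp (X / 2 * n + X / 4 * n) := (Real.exp_add _ _).symm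
        _ ≤ Real.exp (X * n) := by
            rw [Real.exp_le_exp]
            nlinarith
    have h6 : ‖a - c‖ * (64 * ((C + 1) * Real.exp (X / 8) ^ n) ^ 2 * (n : ℝ) ^ 2) ≤ 1 := by
      calc ‖a - c‖ * (64 * ((C + 1) * Real.exp (X / 8) ^ n) ^ 2 * (n : ℝ) ^ 2)
          ≤ Real.exp (-(X * n)) * Real.exp (X * n) := by gcongr
        _ = 1 := by rw [← Real.exp_add]; simp
    linarith

/-- **Remoteness** for all exponents. -/
theorem ord_all {ψ : ℂ → ℂ} (hψ : IsExteriorMap (multibrotSet 2) ψ) {c : ℂ}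
    (hc : c ∈ multibrotSet 2) (hne : ∀ m, 1 ≤ m → P 2 m c ≠ 0)
    (h : ∀ L : ℝ, 1 < L → ∃ C : ℝ, 0 < C ∧ ∀ m n, m ≤ n → LL c m n ≤ C * L ^ (n - m))
    (hB : ∀ κ : ℝ, 0 < κ → ¬ Big ψ κ c) {σ : ℝ} (hσ : 0 < σ) : Ord 2 ψ σ c := by
  have hl : 0 < Real.log 2 := Real.log_pos one_lt_two
  refine ord_of le_rfl hψ hc hσ ?_ ?_ ?_
  · intro κ hκ0 hκ
    have hfew : ∀ κ : ℝ, 0 < κ → FewAt 2 κ c := by
      intro κ hκ0
      refine few_of le_rfl hψ hc hne (κ' := κ + 1) (X := Real.log 2 / (2 * κ)) hκ0 (by linarith) ?_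
        (hB _ (by linarith)) (not_near hne h (by positivity))
      have e : Real.log 2 / (2 * κ) * κ = Real.log 2 / 2 := by
        field_simp
      rw [e]
      push_cast
      linarith
    exact ⟨hfew κ hκ0, mom_of le_rfl hne hκ0 (lt_add_one _) (hfew _ (by linarith))⟩
  · intro κ hκ0 _
    exact hB κ hκ0
  · intro X hX
    exact not_near hne h (lt_trans (by positivity) hX)

/-- Green's function and the harmonic measure. -/
theorem slim_exp {ψ : ℂ → ℂ} (hψ : IsExteriorMap (multibrotSet 2) ψ) {c : ℂ}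
    (hc : c ∈ multibrotSet 2) {s γ : ℝ} (hγ : 0 < γ) (hγs : γ < s)
    (h : ∀ᶠ r : ℝ in 𝓝[>] 0, ∀ w : ℂ, 1 < ‖w‖ → ‖ψ w - c‖ ≤ 2 * r →
      Real.log ‖w‖ ≤ Real.exp (-(2 * r ^ (-s)))) :
    ∀ᶠ r : ℝ in 𝓝[>] 0, (volume (Ang ψ c r)).toReal < Real.exp (-(r ^ (-γ))) ∧
      sSup {x | ∃ w : ℂ, 1 < ‖w‖ ∧ ‖ψ w - c‖ ≤ r ∧ Real.log ‖w‖ = x} <
        Real.exp (-(r ^ (-γ))) := by
  have hl : 0 < Real.log 2 := Real.log_pos one_lt_two
  have hπ := Real.pi_pos
  filter_upwards [h, exp_lt 2 (2 * Real.pi / Real.log 2) hγ hγs two_pos (by positivity),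
    exp_lt 2 1 hγ hγs two_pos one_pos, self_mem_nhdsWithin] with r h1 h2 h3 hr
  have hr0 : 0 < r := hr
  constructor
  · refine (Pool.Agent.Y736.HG.vol_le le_rfl hψ hc hr0 (Real.exp_pos _).le h1).trans_lt ?_
    calc 2 * Real.pi * Real.exp (-(2 * r ^ (-s))) / Real.log 2
        = 2 * Real.pi / Real.log 2 * Real.exp (-(2 * r ^ (-s))) := by ring
      _ < _ := h2
  · rw [one_mul] at h3
    refine lt_of_le_of_lt (Real.sSup_le ?_ (Real.exp_pos _).le) h3
    rintro _ ⟨w, hw1, hw2, rfl⟩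
    exact h1 w hw1 (by linarith)

theorem tendsto_two : Tendsto (fun r : ℝ => 2 * r) (𝓝[>] 0) (𝓝[>] 0) := by
  apply tendsto_nhdsWithin_of_tendsto_nhds_of_eventually_within
  · have : Tendsto (fun r : ℝ => 2 * r) (𝓝 0) (𝓝 (2 * 0)) :=
      (continuous_const.mul continuous_id).tendsto 0
    rw [mul_zero] at this
    exact this.mono_left nhdsWithin_le_nhds
  · filter_upwards [self_mem_nhdsWithin] with r hr
    have : 0 < r := hr
    show 0 < 2 * r
    linarith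

/-- The numbers of superattracting parameters. -/
theorem few_exp {ψ : ℂ → ℂ} (hψ : IsExteriorMap (multibrotSet 2) ψ) {c : ℂ}
    (hc : c ∈ multibrotSet 2) (hne : ∀ m, 1 ≤ m → P 2 m c ≠ 0) {s γ δ : ℝ} {N : ℕ} (hγ : 0 < γ)
    (hγs : γ < s) (hN : 1 ≤ N) (hγN : γ < 1 / N) (hδ : 0 < δ)
    (hfar : ∀ n : ℕ, 1 ≤ n → ∀ a : ℂ, P 2 n a = 0 → δ ≤ (n : ℝ) ^ N * ‖a - c‖)
    (h : ∀ᶠ r : ℝ in 𝓝[>] 0, ∀ w : ℂ, 1 < ‖w‖ → ‖ψ w - c‖ ≤ 2 * r →
      Real.log ‖w‖ ≤ Real.exp (-(2 * r ^ (-s)))) :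
    ∀ᶠ r : ℝ in 𝓝[>] 0, ∀ n : ℕ, 1 ≤ n →
      ((cen 2 n c r).ncard : ℝ) ≤ (2 : ℝ) ^ n * Real.exp (-(r ^ (-γ))) := by
  have hl : 0 < Real.log 2 := Real.log_pos one_lt_two
  have hπ := Real.pi_pos
  have hN0 : (0 : ℝ) < N := by exact_mod_cast hN
  obtain ⟨n₁, hn₁⟩ := lin_exp (b := Real.log 2 / 2) (A := KL * Real.log 2) (by positivity)
  have hsmall : ∀ᶠ r : ℝ in 𝓝[>] 0, ∀ n ∈ Finset.range n₁, 1 ≤ n → ∀ a ∈ ball c r,
      P 2 n a ≠ 0 := by
    rw [Filter.eventually_all_finset]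
    intro n _
    by_cases hn : 1 ≤ n
    · have hcont : Continuous (P 2 n) := (Pool.Agent.H713R2.differentiable_P 2 n).continuous
      have h3 : {a | P 2 n a ≠ 0} ∈ 𝓝 c := (isOpen_ne.preimage hcont).mem_nhds (hne n hn)
      obtain ⟨ε, hε, hb⟩ := Metric.mem_nhds_iff.1 h3
      filter_upwards [Ioo_mem_nhdsGT hε] with r hr _ a ha
      exact hb (ball_subset_ball hr.2.le ha)
    · exact Eventually.of_forall fun r h => absurd h hn
  have h2s : (0 : ℝ) < 2 ^ (-s) := Real.rpow_pos_of_pos two_pos _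
  filter_upwards [hsmall, tendsto_two.eventually h,
    exp_lt (2 * 2 ^ (-s)) (1 / Real.log 2) hγ hγs (by positivity) (by positivity),
    pow_lt (s := 1 / N) (Real.log 2 / 2 * δ ^ (1 / (N : ℝ))) 0 hγ hγN (by positivity),
    self_mem_nhdsWithin] with r h1 h2 h3 h4 hr n hn
  have hr0 : 0 < r := hr
  rcases Set.eq_empty_or_nonempty (cen 2 n c r) with he | ⟨a, ha, haP⟩
  · rw [he, ncard_empty, Nat.cast_zero]
    positivity
  have hnn : n₁ ≤ n := by
    by_contra hcon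
    exact h1 n (Finset.mem_range.2 (by omega)) hn a ha haP
  have hn0 : (0 : ℝ) < n := by exact_mod_cast hn
  -- `n` is large
  have h5 : r ^ (-γ) < Real.log 2 / 2 * n := by
    have h6 := hfar n hn a haP
    rw [mem_ball, dist_eq_norm] at ha
    have h7 : δ / r ≤ (n : ℝ) ^ N := by
      rw [div_le_iff₀ hr0]
      exact h6.trans (by gcongr)
    have h8 : (δ / r) ^ (1 / (N : ℝ)) ≤ n := by
      calc (δ / r) ^ (1 / (N : ℝ)) ≤ ((n : ℝ) ^ N) ^ (1 / (N : ℝ)) := by gcongr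
        _ = n := by
          rw [one_div, Real.pow_rpow_inv_natCast hn0.le (by omega)]
    have h9 : δ ^ (1 / (N : ℝ)) * r ^ (-(1 / (N : ℝ))) = (δ / r) ^ (1 / (N : ℝ)) := by
      rw [Real.div_rpow hδ.le hr0.le, Real.rpow_neg hr0.le]
      exact (div_eq_mul_inv _ _).symm
    rw [add_zero, mul_assoc, h9] at h4
    refine h4.trans_le ?_
    gcongr
  have h6 : Real.exp (Real.log 2 / 2 * n) ≤ (2 : ℝ) ^ n * Real.exp (-(r ^ (-γ))) := by
    have e : (2 : ℝ) ^ n = Real.exp (Real.log 2 * n) := by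
      rw [mul_comm, Real.exp_nat_mul, Real.exp_log two_pos]
    rw [e, ← Real.exp_add, Real.exp_le_exp]
    linarith
  have h7 := hn₁ n hnn
  obtain ⟨M, rfl⟩ : ∃ M, n = M + 1 := ⟨n - 1, by omega⟩
  have h8 := (law le_rfl hψ hc M hr0 one_pos le_rfl).1
  rw [cen_eq le_rfl]
  rw [div_one, show (1 + 1) * r = 2 * r by ring] at h8
  have h9 := Pool.Agent.Y736.HG.vol_le le_rfl hψ hc (by positivity : 0 < 2 * r)
    (Real.exp_pos _).le h2
  have h10 : (volume (Ang ψ c (2 * r))).toReal / (2 * Real.pi) ≤ Real.exp (-(r ^ (-γ))) := by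
    rw [div_le_iff₀ (by positivity)]
    refine h9.trans ?_
    have e : (2 * r) ^ (-s) = 2 ^ (-s) * r ^ (-s) := Real.mul_rpow two_pos.le hr0.le
    rw [e]
    have h11 := h3.le
    rw [show -(2 * 2 ^ (-s) * r ^ (-s)) = -(2 * (2 ^ (-s) * r ^ (-s))) by ring] at h11
    calc 2 * Real.pi * Real.exp (-(2 * (2 ^ (-s) * r ^ (-s)))) / Real.log 2
        = 1 / Real.log 2 * Real.exp (-(2 * (2 ^ (-s) * r ^ (-s)))) * (2 * Real.pi) := by ring
      _ ≤ Real.exp (-(r ^ (-γ))) * (2 * Real.pi) := by gcongr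
  refine h8.trans ?_
  have h12 : (2 : ℝ) ^ M * ((volume (Ang ψ c (2 * r))).toReal / (2 * Real.pi)) ≤
      1 / 2 * ((2 : ℝ) ^ (M + 1) * Real.exp (-(r ^ (-γ)))) := by
    calc (2 : ℝ) ^ M * ((volume (Ang ψ c (2 * r))).toReal / (2 * Real.pi))
        ≤ (2 : ℝ) ^ M * Real.exp (-(r ^ (-γ))) := by gcongr
      _ = _ := by rw [pow_succ]; ring
  push_cast at h12 h7 h6 ⊢
  nlinarith

end Pool.Agent.N245.BG
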