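import Mathlib
import Pool.Prelude.Def_F_c31e40fa
import Pool.Agent.Y736.HL3

set_option autoImplicit false

/-! # Infinitely renormalizable parameters with bounded geometry: statements of the parts

`fc 2 c z = z ^ 2 + c`, `P 2 n c = f_c^n (0)` (`P_zero`, `P_one le_rfl`, `P_succ`),
`LL c m n = ∏_{m ≤ i < n} |2 P_i|` is the modulus of the derivative of `f_c^(n-m)` at `P_m`. -/

namespace Pool.Agent.N245.BG

open Complex Metric Set Filter Topology Pool.Agent.H712R2 Pool.Agent.H713R2 N62a1eb23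
open Pool.Agent.Y736.HL

/-- bounded geometry at the time `p` with the constant `C` -/
def Geo (C : ℝ) (c : ℂ) (p : ℕ) : Prop :=
  ∃ (U : Set ℂ) (r : ℝ), 0 < r ∧ (∀ n : ℕ, ball (P 2 (n * p) c) r ⊆ U) ∧
    ∀ z ∈ U, ∀ z' ∈ U, ‖(fc 2 c)^[p] z - (fc 2 c)^[p] z'‖ ≤ C * r

/-- POLY: bounded geometry at times `1 = p_0 | p_1 | p_2 | ...` with bounded quotients gives
polynomial growth of the derivatives along the critical orbit. -/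
def S_POLY : Prop := ∀ (c : ℂ) (C : ℝ) (B : ℕ) (p : ℕ → ℕ), c ∈ multibrotSet 2 → p 0 = 1 →
  (∀ k, p k ∣ p (k + 1)) → (∀ k, p k < p (k + 1)) → (∀ k, p (k + 1) ≤ B * p k) →
  (∀ k, Geo C c (p k)) →
  ∃ (K : ℝ) (β : ℕ), 1 ≤ K ∧ ∀ m n, m ≤ n → LL c m n ≤ K * ((n - m + 1 : ℕ) : ℝ) ^ β

/-- CLOSE: two critical orbits stay together. -/
def S_CLOSE : Prop := ∀ (c₀ c : ℂ) (A : ℝ) (n : ℕ), 1 ≤ A →
  (∀ m k, 1 ≤ m → m ≤ k → k ≤ n → LL c₀ m k ≤ A) → 4 * A ^ 2 * ‖c - c₀‖ * (n : ℝ) ^ 2 ≤ 1 →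
  ∀ k, k ≤ n → ‖P 2 k c - P 2 k c₀‖ ≤ 2 * A * ‖c - c₀‖ * k

/-- REC: a very close return of the critical orbit makes the parameter hyperbolic. -/
def S_REC : Prop := ∀ (c : ℂ) (A : ℝ) (n : ℕ), 1 ≤ A → 1 ≤ n →
  (∀ m k, 1 ≤ m → m ≤ k → k ≤ n → LL c m k ≤ A) → ‖P 2 n c‖ ≤ 1 / (32 * A * n) →
  ∃ z : ℂ, IsAttractingCycle (fun w => w ^ 2 + c) n z

/-- NE: if `f_c^p` takes no value more than twice on a neighbourhood of `0` then the critical point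
does not return to itself before the time `p`. -/
def S_NE : Prop := ∀ (c : ℂ) (p m : ℕ) (U : Set ℂ), IsOpen U → (0 : ℂ) ∈ U →
  (∀ w ∈ (fc 2 c)^[p] '' U, {z | z ∈ U ∧ (fc 2 c)^[p] z = w}.encard ≤ 2) →
  1 ≤ m → m < p → P 2 m c ≠ 0

/-- GREEN: polynomial growth of the derivatives gives a stretched exponential bound of Green's
function. -/
def S_GREEN : Prop := ∀ (c : ℂ) (K : ℝ) (β : ℕ), c ∈ multibrotSet 2 → 1 ≤ K →
  (∀ m n, m ≤ n → LL c m n ≤ K * ((n - m + 1 : ℕ) : ℝ) ^ β) →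
  ∀ᶠ r : ℝ in 𝓝[>] 0, ∀ ψ : ℂ → ℂ, IsExteriorMap (multibrotSet 2) ψ → ∀ w : ℂ, 1 < ‖w‖ →
    ‖ψ w - c‖ ≤ 2 * r → Real.log ‖w‖ ≤ Real.exp (-(2 * r ^ (-(1 / (2 * (β : ℝ) + 4)))))

/-- SUB: subexponential geometry gives subexponential growth of the derivatives. -/
def S_SUB : Prop := ∀ c : ℂ, c ∈ multibrotSet 2 →
  (∀ ε : ℝ, 0 < ε → {p : ℕ | Geo (Real.exp (ε * p)) c p}.Infinite) →
  ∀ L : ℝ, 1 < L → ∃ C : ℝ, 0 < C ∧ ∀ m n, m ≤ n → LL c m n ≤ C * L ^ (n - m)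

end Pool.Agent.N245.BG
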